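import Pool.Agent.Lib.MP_e920bf_ag.Final

/-!
# Failure of the analytic product structure of the equisingularity strata after blowing up

`V` is the hypersurface `z ^ 5 = x y (x - y) (x - t y)` of the affine space `A^4` with
coordinates `x = X 0, y = X 1, z = X 2, t = X 3`, and `W` is the `t`-axis.  In the chart
`(x, y, z, t) ↦ (x z, y z, z, t)` of the blowing-up of `W`, the blowing-up `V*` of `V` is the
nonsingular hypersurface `z = x y (x - y) (x - t y)`, whose equisingular stratification has the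
single stratum `V*`.  The inverse image of `W₁ = Eqs (W / V)` is a family of four concurrent lines
with varying cross-ratio.
-/

open MvPolynomial ZariskiEq

namespace Pool.Agent.Results.MP_e920bf_ag.ProductFails

noncomputable section

/-- The polynomial `z ^ 5 - x y (x - y) (x - t y)`. -/
def f : MvPolynomial (Fin 4) ℂ :=
  X 2 ^ 5 - X 0 * X 1 * (X 0 - X 1) * (X 0 - X 3 * X 1)

/-- The hypersurface `f = 0`. -/
def V : Set (Fin 4 → ℂ) := {x | eval x f = 0}

/-- The indices of the coordinates which vanish on `W`. -/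
def c : Finset (Fin 4) := {0, 1, 2}

/-- The `t`-axis. -/
def W : Set (Fin 4 → ℂ) := center c

/-- `W₁ = Eqs (W / V)`. -/
def W₁ : Set (Fin 4 → ℂ) := Eqs (n := 3) V W

/-- The map `(x, y, z, t) ↦ (x z, y z, z, t)`: a chart of the blowing-up of `A^4` along `W`. -/
def T : (Fin 4 → ℂ) → (Fin 4 → ℂ) := blowupChart c 2

/-- The part in this chart of the blowing-up `V*` of `V` along `W`. -/
def VStar : Set (Fin 4 → ℂ) := blowup c 2 V

lemma V_eq : V = Example.V := by
  ext x
  simp only [V, f, Example.V, Set.mem_ofPred_eq, map_sub, map_pow, map_mul, eval_X, sub_eq_zero]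

lemma VStar_eq : VStar = Example.G := by
  rw [VStar, V_eq]
  exact Example.blowup_V

lemma squarefree_f : Squarefree f := by
  rintro P ⟨q, hq⟩
  have h1 : P ∣ pderiv 2 f := by
    rw [hq]
    refine ⟨P * pderiv 2 q + 2 * q * pderiv 2 P, ?_⟩
    simp only [Derivation.leibniz, smul_eq_mul]
    ring
  have h2 : pderiv 2 f = C 5 * X 2 ^ 4 := by
    simp only [f, map_sub, Derivation.leibniz, Derivation.leibniz_pow, smul_eq_mul, pderiv_X_self]
    rw [pderiv_X_of_ne (by decide), pderiv_X_of_ne (by decide), pderiv_X_of_ne (by decide)]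
    simp
    rfl
  rw [h2] at h1
  have h5 : IsUnit (C 5 : MvPolynomial (Fin 4) ℂ) :=
    (isUnit_iff_ne_zero.2 (by norm_num : (5 : ℂ) ≠ 0)).map C
  have h3 : P ∣ X 2 ^ 4 := (h5.dvd_mul_left).1 h1
  obtain ⟨i, _, hi⟩ := (dvd_prime_pow MvPolynomial.X_prime 4).1 h3
  rcases Nat.eq_zero_or_pos i with h0 | h0
  · subst h0
    rw [pow_zero] at hi
    exact (associated_one_iff_isUnit).1 hi
  · exfalso
    have h4 : (X 2 : MvPolynomial (Fin 4) ℂ) ∣ f :=
      (dvd_pow_self _ h0.ne').trans (hi.symm.dvd.trans ⟨P * q, by rw [hq]; ring⟩)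
    obtain ⟨r, hr⟩ := h4
    have := congrArg (eval ![2, 1, 0, 0]) hr
    simp [f] at this
    norm_num at this

theorem result :
    Squarefree f ∧ IsIrreducibleClosed W ∧ W ⊆ V ∧ (W \ W₁).Finite ∧
      singularLocus VStar = ∅ ∧ IsEquisingularStratification (n := 3) VStar {VStar} ∧
      ∀ Q ∈ W₁, ∃ Q' ∈ VStar, T Q' = Q ∧
        ∀ 𝒮, IsEquisingularStratification (n := 3) VStar 𝒮 → ∀ S ∈ 𝒮, Q' ∈ S →
          ¬ LocallyAnalyticProduct W₁ {p | p ∈ S ∧ T p = Q} {p | p ∈ S ∧ T p ∈ W₁} T Q Q' ∧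
          ¬ LocallyDifferentiableProduct W₁ {p | p ∈ S ∧ T p = Q} {p | p ∈ S ∧ T p ∈ W₁}
              T Q Q' := by
  have hW₁ : W₁ = Eqs (n := 3) Example.V (center Example.c) := by
    rw [W₁, V_eq]; rfl
  refine ⟨squarefree_f, ?_, ?_, ?_, ?_, ?_, ?_⟩
  · exact Example.irreducible_center
  · rw [V_eq]; exact Example.center_subset_V
  · refine (Example.finite_bad.image Example.vertex).subset ?_
    rintro x ⟨hx, hx'⟩
    obtain ⟨t, rfl⟩ := (Example.mem_center_iff x).1 hx
    refine ⟨t, ?_, rfl⟩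
    rw [hW₁] at hx'
    exact hx'
  · rw [VStar_eq]; exact Example.singularLocus_G
  · rw [VStar_eq]; exact Example.isStratification_G
  · intro Q hQ
    obtain ⟨t, rfl⟩ := (Example.mem_center_iff Q).1 hQ.1
    have hmem := (Example.mem_G_over (Example.vertex t) t).2 (by
      simp [Example.pr, Example.vertex, Example.pt, FourLines.Z])
    refine ⟨Example.vertex t, ?_, hmem.2, ?_⟩
    · rw [VStar_eq]; exact hmem.1
    · intro 𝒮 h𝒮 S hS _
      rw [VStar_eq] at h𝒮
      rw [Example.stratification_unique h𝒮] at hS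
      obtain rfl : S = Example.G := hS
      have key := Example.not_product t
      rw [hW₁]
      refine ⟨?_, key⟩
      rintro ⟨N₁, N₂, N₃, φ, ψ, H, hφ, hψ⟩
      exact key ⟨N₁, N₂, N₃, φ, ψ, H, hφ.differentiableOn.restrictScalars ℝ,
        hψ.differentiableOn.restrictScalars ℝ⟩

end

end Pool.Agent.Results.MP_e920bf_ag.ProductFails
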